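import Pool.Agent.P.MP_cac9ea_co.LnMain

theorem Pool.Agent.Results.MP_cac9ea_co.LinearBound.result :
    ∀ n N : ℕ, ∀ p : Fin N → ℝ × ℝ,
      Function.Injective (fun i => (p i).2) →
      (∀ i j k : Fin N, i ≠ j → j ≠ k → i ≠ k → ¬ Collinear ℝ ({p i, p j, p k} : Set (ℝ × ℝ))) →
      ∀ d : ℕ → Bool,
      n + ((Finset.range n).filter fun i =>
        i + 3 < n ∧ d i ≠ d (i + 1) ∧ d (i + 1) ≠ d (i + 2)).card ≤ N →
      ∃ σ : Fin n ↪ Fin N,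
        (∀ i : Fin n, ∀ h : i.val + 1 < n,
          (d i.val = true → (p (σ i)).2 < (p (σ ⟨i.val + 1, h⟩)).2) ∧
          (d i.val = false → (p (σ ⟨i.val + 1, h⟩)).2 < (p (σ i)).2)) ∧
        (∀ i j : Fin n, ∀ hi : i.val + 1 < n, ∀ hj : j.val + 1 < n, i.val + 1 < j.val →
          Disjoint (segment ℝ (p (σ i)) (p (σ ⟨i.val + 1, hi⟩)))
                   (segment ℝ (p (σ j)) (p (σ ⟨j.val + 1, hj⟩)))) :=
  Pool.Agent.P.MP_cac9ea_co.Sc.linear
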