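import Pool.Agent.P.MP_cac9ea_co.ReFin

theorem Pool.Agent.Results.MP_cac9ea_co.RegularEnds.result :
    ∀ n : ℕ, ∀ p : Fin n → ℝ × ℝ,
      Function.Injective (fun i => (p i).2) →
      (∀ i j k : Fin n, i ≠ j → j ≠ k → i ≠ k → ¬ Collinear ℝ ({p i, p j, p k} : Set (ℝ × ℝ))) →
      ∀ d : ℕ → Bool, ∀ a b : ℕ, a ≤ b →
      (∀ i, i < a → d i = d (i + 1) → d i = d a) →
      (∀ i, b ≤ i → i + 2 < n → d i = d (i + 1) → d i = d b) →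
      (∀ i, a ≤ i → i + 3 ≤ b → d i ≠ d (i + 1) → d (i + 1) ≠ d (i + 2) → d (i + 2) = d (i + 3)) →
      (a + 2 ≤ b → (a = 0 ∨ d (a - 1) = d a) ∧ (n ≤ b + 2 ∨ d b = d (b + 1))) →
      ∃ σ : Fin n ≃ Fin n,
        (∀ i : Fin n, ∀ h : i.val + 1 < n,
          (d i.val = true → (p (σ i)).2 < (p (σ ⟨i.val + 1, h⟩)).2) ∧
          (d i.val = false → (p (σ ⟨i.val + 1, h⟩)).2 < (p (σ i)).2)) ∧
        (∀ i j : Fin n, ∀ hi : i.val + 1 < n, ∀ hj : j.val + 1 < n, i.val + 1 < j.val →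
          Disjoint (segment ℝ (p (σ i)) (p (σ ⟨i.val + 1, hi⟩)))
                   (segment ℝ (p (σ j)) (p (σ ⟨j.val + 1, hj⟩)))) :=
  fun n p h1 h2 d a b => Pool.Agent.P.MP_cac9ea_co.Re.final n p ⟨h1, h2⟩ d a b
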